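import Pool.Agent.H51.Tfdw.Defs
import Pool.Agent.H51.Tfdw.Main

set_option autoImplicit false

open MeasureTheory Pool.Agent.H51.Tfdw

namespace Pool.Agent.Results.MP_369429_mp.AbsMinBelowZ

/-- For every choice of the constants the assertion that all absolute-minimum points are at
least the total nuclear charge fails, both for every system of nuclei of small total charge
(where the only absolute-minimum point is zero) and for nuclei which do bind a positive number
of particles. -/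
theorem result (A γ C p : ℝ) (hA : 0 < A) (hγ : 0 < γ) (hC : 0 < C) (hp : 4 / 3 < p) :
    (∀ (k : ℕ) (z : Fin k → ℝ) (R : Fin k → E3), (∀ j, 0 < z j) →
      (∀ (ψ : E3 → ℝ) (G : E3 → E3), Admissible p ψ G →
        Integrable (fun x => ‖G x‖ ^ 2) ∧ Integrable (fun x => Jalpha γ C p (ψ x ^ 2)) ∧
        Integrable (fun x => nuclearPotential z R x * ψ x ^ 2) ∧
        Integrable (fun w : E3 × E3 => ψ w.1 ^ 2 * ψ w.2 ^ 2 / ‖w.1 - w.2‖)) ∧
      (∀ lam, 0 ≤ lam → (energies A γ C p z R lam).Nonempty ∧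
        BddBelow (energies A γ C p z R lam)) ∧
      ∃ lam, IsAbsMinPoint A γ C p z R lam) ∧
    (∃ Z₀ : ℝ, 0 < Z₀ ∧ ∀ (k : ℕ) (z : Fin k → ℝ) (R : Fin k → E3), (∀ j, 0 < z j) →
      ∑ j, z j ≤ Z₀ → ∀ lam, IsAbsMinPoint A γ C p z R lam ↔ lam = 0) ∧
    (∀ M : ℝ, ∃ (k : ℕ) (z : Fin k → ℝ) (R : Fin k → E3), 1 ≤ k ∧ (∀ j, 0 < z j) ∧
      Function.Injective R ∧
      ∀ lam, IsAbsMinPoint A γ C p z R lam → 0 < lam ∧ lam < (∑ j, z j) - M) := by
  refine ⟨fun k z R hz => ?_, ?_, fun M => ?_⟩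
  · obtain ⟨h1, h2⟩ := wellposed hA hγ hC hp z R hz
    exact ⟨fun ψ G h => integrable_all hp h z R, h1, h2⟩
  · obtain ⟨Z₀, hZ₀, h⟩ := smallCharge hA hγ hC hp
    exact ⟨Z₀, hZ₀, fun k z R hz hZ => (h k z R hz hZ).2⟩
  · obtain ⟨k, z, R, hz, hR, h⟩ := nondegenerate hA hγ hC hp M
    refine ⟨k, z, R, ?_, hz, hR, h⟩
    rcases Nat.eq_zero_or_pos k with rfl | hk
    · exfalso
      obtain ⟨lam, hlam⟩ := (wellposed hA hγ hC hp z R hz).2
      have h1 := h lam hlam
      -- with no nuclei the only absolute-minimum point is zero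
      obtain ⟨Z₀, hZ₀, h2⟩ := smallCharge hA hγ hC hp
      have h3 := ((h2 0 z R hz (by simpa using hZ₀.le)).2 lam).1 hlam
      linarith
    · exact hk

end Pool.Agent.Results.MP_369429_mp.AbsMinBelowZ
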